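import Pool.Agent.Helper39.Uct.Goals3

/-!
MP_d97caa_an, packet RZL: from groups in `PZ` to groups that are locally in `PZ`.
-/

set_option autoImplicit false

open scoped ComplexOrder

namespace Pool.Agent.Helper97.Uct2

open Pool.Agent.Helper39.Uct Pool.Agent.Helper39.Uct.Fib Pool.Agent.Helper10.Uct

/-- the fibres of a weak grading of a separable algebra over a suitable countable set span a
dense subspace -/
theorem exists_countable_index {Q : Type} [Group Q] {B : Type} [NonUnitalCStarAlgebra B]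
    [TopologicalSpace.SeparableSpace B] (G : Fib Q B) :
    ∃ C : Set Q, C.Countable ∧ ((⨆ q ∈ C, G.fib q : Submodule ℂ B)).topologicalClosure = ⊤ := by
  classical
  have : SecondCountableTopology B := UniformSpace.secondCountable_of_separable B
  set S : Submodule ℂ B := ⨆ q, G.fib q with hS
  obtain ⟨T, hTS, hTc, hTd⟩ : ∃ T : Set B, T ⊆ (S : Set B) ∧ T.Countable ∧
      (S : Set B) ⊆ closure T :=
    (TopologicalSpace.IsSeparable.of_separableSpace (S : Set B)).exists_countable_dense_subset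
  have hfin : ∀ t : B, t ∈ T → ∃ F : Finset Q, t ∈ ⨆ q ∈ F, G.fib q := by
    intro t ht
    have h1 : t ∈ S := hTS ht
    rw [hS, iSup_eq_iSup_finset, Submodule.mem_iSup_of_directed] at h1
    · exact h1
    · apply Monotone.directed_le
      intro F F' hFF
      exact biSup_mono (fun q hq => hFF hq)
  choose! F hF using hfin
  refine ⟨⋃ t ∈ T, (F t : Set Q), hTc.biUnion (fun t _ => (F t).countable_toSet), ?_⟩
  rw [eq_top_iff, ← G.dense]
  apply Submodule.topologicalClosure_minimal _ _ (Submodule.isClosed_topologicalClosure _)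
  show (S : Set B) ⊆ _
  refine hTd.trans (closure_mono ?_)
  intro t ht
  have h3 : (⨆ q ∈ F t, G.fib q) ≤ ⨆ q ∈ (⋃ t ∈ T, (F t : Set Q)), G.fib q := by
    refine iSup₂_le ?_
    intro q hq
    exact le_iSup₂ (f := fun q (_ : q ∈ (⋃ t ∈ T, (F t : Set Q))) => G.fib q) q
      (Set.mem_biUnion ht hq)
  exact h3 (hF t ht)

theorem rzl (hRZ : S_RZ) : S_RZL := by
  intro 𝒞 h𝒞 B _ _ Q _ hQ G A _ hA ι hι
  obtain ⟨C, hC, hCd⟩ := exists_countable_index G
  obtain ⟨f, hf⟩ : ∃ f : ℕ → Q, C ⊆ Set.range f := by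
    obtain rfl | hne := C.eq_empty_or_nonempty
    · exact ⟨fun _ => 1, Set.empty_subset _⟩
    · obtain ⟨f, hf⟩ := hC.exists_eq_range hne
      exact ⟨f, hf.le⟩
  set Qn : ℕ → Subgroup Q := fun n => Subgroup.closure (f '' Set.Iio n) with hQn
  have hQmono : Monotone Qn := by
    intro m n hmn
    exact Subgroup.closure_mono (Set.image_mono (Set.Iio_subset_Iio hmn))
  have hfg : ∀ n, (Qn n).FG := by
    intro n
    rw [Subgroup.fg_iff]
    exact ⟨_, rfl, (Set.finite_Iio n).image f⟩
  have key : ∀ n, ∃ (D : Type) (_ : NonUnitalCStarAlgebra D) (ι : D →⋆ₙₐ[ℂ] B),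
      Function.Injective ι ∧ Set.range ι = (fibSpan G (Qn n) : Set B) ∧ 𝒞 D := by
    intro n
    obtain ⟨D, _, j, hj, hjr, G', hG'⟩ := exists_restrict G (Qn n)
    refine ⟨D, inferInstance, j, hj, hjr, ?_⟩
    have hsub : Set.range ι ⊆ Set.range j := by
      rw [hι, hjr]
      exact fib_le_fibSpan G (Qn n) (Qn n).one_mem
    obtain ⟨f', hf'⟩ := lift_hom ι j hj hsub
    have hiso : Isometry j := NonUnitalStarAlgHom.isometry j hj
    have : SecondCountableTopology B := UniformSpace.secondCountable_of_separable B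
    have : SecondCountableTopology D :=
      hiso.isUniformInducing.isInducing.secondCountableTopology
    refine hRZ 𝒞 h𝒞 (Qn n) (hQ _ (hfg n)) D ⟨G', A, inferInstance, hA, f', ?_⟩
    ext x
    constructor
    · rintro ⟨a, rfl⟩
      have h1 : ι a ∈ (G.fib 1 : Set B) := by rw [← hι]; exact Set.mem_range_self a
      show f' a ∈ G'.fib 1
      rw [hG', hf']
      exact h1
    · intro hx
      have h1 : j x ∈ G.fib ((1 : Qn n) : Q) := (hG' 1 x).1 hx
      have h2 : j x ∈ Set.range ι := by rw [hι]; exact h1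
      obtain ⟨a, ha⟩ := h2
      exact ⟨a, hj (by rw [hf', ha])⟩
  choose D inst j hj hjr hjC using key
  refine h𝒞.union B D j hj ?_ ?_ hjC
  · intro n
    rw [hjr, hjr]
    exact fibSpan_mono G (hQmono (Nat.le_succ n))
  · have hmono : Monotone (fun n => fibSpan G (Qn n)) := fun m n hmn => fibSpan_mono G (hQmono hmn)
    have h1 : (⨆ q ∈ C, G.fib q) ≤ ⨆ n, fibSpan G (Qn n) := by
      apply iSup₂_le
      intro q hq
      obtain ⟨n, rfl⟩ := hf hq
      refine le_trans ?_ (le_iSup (fun n => fibSpan G (Qn n)) (n + 1))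
      exact fib_le_fibSpan G _ (Subgroup.subset_closure ⟨n, Nat.lt_succ_self n, rfl⟩)
    have h2 : ((⨆ n, fibSpan G (Qn n) : Submodule ℂ B) : Set B) =
        ⋃ n, (fibSpan G (Qn n) : Set B) :=
      Submodule.coe_iSup_of_directed _ hmono.directed_le
    have h3 : (⋃ n, Set.range (j n)) = ((⨆ n, fibSpan G (Qn n) : Submodule ℂ B) : Set B) := by
      rw [h2]
      exact Set.iUnion_congr hjr
    rw [h3]
    intro x
    have h4 : x ∈ (⨆ q ∈ C, G.fib q : Submodule ℂ B).topologicalClosure := by rw [hCd]; trivial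
    exact closure_mono h1 h4

end Pool.Agent.Helper97.Uct2
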